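import Pool.Agent.Helper37K9.RN.Fin
import Pool.Agent.Helper44K9.RN.Rel

/-!
# Images of complete intersections under maps with fibres on rational normal curves

Let `V` be a smooth complete intersection of dimension `n ≥ 1` of hypersurfaces `F_k = 0` of
degrees `d_k`, `k ∈ κ`, in the projective space `P^N`, with `K_V = O(m)`, `m = Σ d_k - N - 1`. Let
`W` be a smooth projective variety with a dominant rational map `V ⇢ W` of degree `r`. Let `s ≥ 1`
be a natural number, such that either

* the points of the general fibre lie on a rational normal curve of degree `s`; or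
* `r ≤ s m + m / 2 + 1`, the general fibre spans a linear space of dimension `s`, any `s + 1` of its
  points are linearly independent, and if some `2 s + 2` of its points impose independent conditions
  on quadrics, then so do all `2 s + 2` of its points; for instance, the monodromy group of the map
  is transitive on the sets of `s + 1` points and on the sets of `2 s + 2` points of the fibre.

Let `ρ = max(r, s m + 2)`. Assume that `ρ > 2 s` in the first case (this is so if `m ≥ 2`), and that
`s ≤ 2` if `m = 2` in the second case. Let `k ∈ κ` be such that `s d_k ≤ ρ + s m + 1` and `s d_j < ρ`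
for all `j ≠ k`. The theorem:

* if `p_g(W) = 0`, then `s m + 2 ≤ r ≤ s d_k`, the points of the general fibre lie on a rational
  normal curve of degree `s`, and `W` is dominated by a component of a hyperplane section of the
  complete intersection of the hypersurfaces `F_j = 0`, `j ≠ k`;
* if moreover `Σ_{j ≠ k} d_j ≤ N - 2` (for smooth `V` this says that `d_k ≥ m + 3`), then these are
  equivalent: `p_g(W) = 0`; `κ(W) = -∞`; `K_W` is not pseudo-effective; `W` is uniruled;
* if `V` is a hypersurface, then these are equivalent: `p_g(W) = 0`; `κ(W) = -∞`; `K_W` is not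
  pseudo-effective; `W` is uniruled; `W` is unirational.

For instance, the conditions on the degrees are satisfied for all smooth hypersurfaces `V` of degree
at least `2 n + 4` (then `m = d - n - 2 ≥ n + 2`, and `s d ≤ 2 s m + 2`). More generally `V` may be any component of dimension `n`,
arbitrarily singular, of a complete intersection which is reduced along it, if some canonical form
of `V` vanishes at least `m` times on the hyperplane sections. The results of the starting
repository, and those on complete intersections without assumptions on the fibres, concern the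
degrees `r ≤ 2 m + 1`; here `r` is bounded by about `(s + 1/2) m`, and in the first case not at all.

Proof. The traces of the canonical forms `A ω`, `A` of degree `m`, are canonical forms of `W`. If
`p_g(W) = 0` then there is a linear relation, with coefficients different from zero, between the
values of the forms of degree `m` at the points of the general fibre; in the second case the lemma
of Castelnuovo shows that the fibre lies on a rational normal curve `C` of degree `s`. As `V` is not
uniruled, `C` is not contained in `V`; by Bezout it is contained in the other hypersurfaces, and the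
residual intersection of `C` with `F_k = 0` has degree at most `s m + 1`. A component of the family
of the residual points which dominates `V` would dominate `V` and `W`, with a fibre over `W`
consisting of at most `s m + 1` points of `C`, which impose independent conditions on forms of
degree `m`: the traces to `W` do not vanish. By a ramification argument at the divisor `V` of the
variety `Y` swept out by the curves `C`, over the Galois closure of `K / L`, a general point of `Y`
lies on one curve `C` only; so `Y` dominates `W`. The hyperplane sections of `Y` dominate `W`. They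
are complete intersections of low degree, covered by lines, or they are projective spaces.

The function-field language of the starting repository is used: `K` is the function field of `V`,
and `L`, a subfield of `K`, the function field of `W`. A canonical form (`IsPluri 1`) on a variety
of dimension `n` is a function of `n` rational vector fields; it is regular at the prime divisor `P`
(`Place`, `Divisorial`, `RegAt`) if its value on vector fields which are regular at `P` is regular
at `P`. `KodGe ℂ L n (fun _ => False) 0` says that `κ(W) ≥ 0`, `Psef ℂ L n (fun _ => False)` that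
`K_W` is pseudo-effective (`Pool/Agent/W602/GT`), `IsUniruled ℂ L n` that `W` is uniruled
(`Pool/Agent/W619/PQ/Defs.lean`). The points of the fibre over the (geometric) generic point of `W`
are the conjugates of the generic point `x` of `V` over `L`.
-/

set_option autoImplicit false
set_option linter.overlappingInstances false
set_option linter.unusedDecidableInType false

open FF MvPolynomial Pool.Agent.W602.GT
open Pool.Agent.W619.PQ (IsUniruled)

namespace Pool.Agent.Results.MP_e06174_ag.FibresOnNormalCurves

section

variable {κ : Type} {N : ℕ}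

/-- The hypersurfaces `F k = 0` of projective `N`-space meet transversally: the gradients of the
equations are linearly independent at all common zeros. -/
def IsSmooth (F : κ → MvPolynomial (Fin (N + 1)) ℂ) : Prop :=
  ∀ z : Fin (N + 1) → ℂ, z ≠ 0 → (∀ k, eval z (F k) = 0) →
    LinearIndependent ℂ fun (k : κ) (l : Fin (N + 1)) => eval z (pderiv l (F k))

variable {K : Type} [Field K] [Algebra ℂ K]

/-- `x` is the generic point of an irreducible component, of dimension `n`, of the intersection of
the hypersurfaces `F k = 0` of projective `N`-space, and `K` is its function field; the homogeneous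
coordinates are normalised by `x i = 1`. -/
structure IsGenericPoint (n : ℕ) (F : κ → MvPolynomial (Fin (N + 1)) ℂ) (i : Fin (N + 1))
    (x : Fin (N + 1) → K) : Prop where
  one : x i = 1
  zero : ∀ k, aeval x (F k) = 0
  gen : IntermediateField.adjoin ℂ (Set.range x) = ⊤
  dim : Algebra.trdeg ℂ K = n

/-- The gradients of the equations are linearly independent at the generic point. -/
def IsTransversal (F : κ → MvPolynomial (Fin (N + 1)) ℂ) (x : Fin (N + 1) → K) : Prop :=
  LinearIndependent K fun (k : κ) (l : Fin (N + 1)) => aeval x (pderiv l (F k))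

/-- There is a canonical form `ω ≠ 0` such that the canonical forms `A ω` are regular at all prime
divisors for all monomials (hence for all forms) `A` of degree `m` in the homogeneous coordinates
`x`: the divisor of `ω`, on all smooth models, is at least `m` times the hyperplane section. -/
def HasForm (n m : ℕ) (x : Fin (N + 1) → K) : Prop :=
  ∃ ω : (Fin n → Derivation ℂ K K) → K, IsPluri 1 ω ∧ (∃ D, ω D ≠ 0) ∧
    ∀ (f : Fin m → Fin (N + 1)) (P : Place ℂ K), Divisorial n P →
      RegAt P (fun D => (∏ k, x (f k)) * ω D)

/-- The points of the fibre of `V ⇢ W` over the geometric generic point of `W`: the conjugates of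
the generic point `x` over `L`. -/
noncomputable def conj (L : Type) [Field L] [Algebra L K] (x : Fin (N + 1) → K)
    (σ : K →ₐ[L] AlgebraicClosure L) (j : Fin (N + 1)) : AlgebraicClosure L := σ (x j)

/-- The points of the generic fibre lie on a rational normal curve of degree `s` in a linear
subspace of dimension `s` of projective `N`-space: they are proportional to the points
`Σ t ^ k w k`, for `s + 1` independent points `w k` and suitable parameters `t`. -/
def OnNormalCurve (L : Type) [Field L] [Algebra L K] (x : Fin (N + 1) → K) (s : ℕ) : Prop :=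
  ∃ (w : Fin (s + 1) → Fin (N + 1) → AlgebraicClosure L)
    (t c : (K →ₐ[L] AlgebraicClosure L) → AlgebraicClosure L),
    LinearIndependent (AlgebraicClosure L) w ∧
      ∀ σ j, conj L x σ j = c σ * ∑ k : Fin (s + 1), t σ ^ (k : ℕ) * w k j

/-- The points of the generic fibre span a linear space of dimension `s`. -/
def FibreSpans (L : Type) [Field L] [Algebra L K] (x : Fin (N + 1) → K) (s : ℕ) : Prop :=
  Module.finrank (AlgebraicClosure L)
    (Submodule.span (AlgebraicClosure L) (Set.range (conj L x))) = s + 1

/-- Any `s + 1` points of the generic fibre are linearly independent. -/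
def LinearlyGeneral (L : Type) [Field L] [Algebra L K] (x : Fin (N + 1) → K) (s : ℕ) : Prop :=
  ∀ S : Finset (K →ₐ[L] AlgebraicClosure L), S.card = s + 1 →
    LinearIndependent (AlgebraicClosure L) fun σ : S => conj L x σ

/-- The points of the set `S` of points of the generic fibre impose independent conditions on
quadrics: for each of them some quadric contains exactly the others. -/
def ImposeIndependent (L : Type) [Field L] [Algebra L K] (x : Fin (N + 1) → K)
    (S : Finset (K →ₐ[L] AlgebraicClosure L)) : Prop :=
  ∀ σ ∈ S, ∃ Q : MvPolynomial (Fin (N + 1)) (AlgebraicClosure L), Q.IsHomogeneous 2 ∧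
    eval (conj L x σ) Q ≠ 0 ∧ ∀ τ ∈ S, τ ≠ σ → eval (conj L x τ) Q = 0

/-- If some `2 s + 2` points of the generic fibre impose independent conditions on quadrics, then so
do all sets of `2 s + 2` points of the generic fibre. -/
def QuadricallyUniform (L : Type) [Field L] [Algebra L K] (x : Fin (N + 1) → K) (s : ℕ) : Prop :=
  ∀ S T : Finset (K →ₐ[L] AlgebraicClosure L), S.card = 2 * s + 2 → T.card = 2 * s + 2 →
    ImposeIndependent L x S → ImposeIndependent L x T

end

/-- The monodromy group of `V ⇢ W` acts transitively on the sets of `k` points of the generic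
fibre. -/
def IsTransitiveOn (L K : Type) [Field L] [Field K] [Algebra L K] (k : ℕ) : Prop :=
  ∀ S T : Finset (K →ₐ[L] AlgebraicClosure L), S.card = k → T.card = k →
    ∃ g : AlgebraicClosure L ≃ₐ[L] AlgebraicClosure L,
      ∀ σ, σ ∈ S ↔ (g : AlgebraicClosure L →ₐ[L] AlgebraicClosure L).comp σ ∈ T

/-- The fibres are in uniform position: the generic fibre spans a linear space of dimension `s`, any
`s + 1` of its points are linearly independent (or the monodromy group is transitive on the sets of
`s + 1` points), and its sets of `2 s + 2` points are uniform with respect to quadrics (or the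
monodromy group is transitive on them). -/
def UniformPosition (L : Type) [Field L] {K : Type} [Field K] [Algebra ℂ K] [Algebra L K] {N : ℕ}
    (x : Fin (N + 1) → K) (s : ℕ) : Prop :=
  FibreSpans L x s ∧ (LinearlyGeneral L x s ∨ IsTransitiveOn L K (s + 1)) ∧
    (QuadricallyUniform L x s ∨ IsTransitiveOn L K (2 * s + 2))

/-- The geometric genus is zero: the only canonical form which is regular at all prime divisors is
`0`. -/
def GenusZero (L : Type) [Field L] [Algebra ℂ L] (n : ℕ) : Prop :=
  ∀ ω : (Fin n → Derivation ℂ L L) → L, IsPluri 1 ω →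
    (∀ P : Place ℂ L, Divisorial n P → RegAt P ω) → ∀ D, ω D = 0

/-- The varieties of dimension `n` with function field `L` are unirational: they are dominated by
the projective space of dimension `n`. -/
def IsUnirational (L : Type) [Field L] [Algebra ℂ L] (n : ℕ) : Prop :=
  Nonempty (L →ₐ[ℂ] FractionRing (MvPolynomial (Fin n) ℂ))

/-- The varieties of dimension `n` with function field `L` are dominated by a component `M` of a
hyperplane section `H = 0` of the intersection of the hypersurfaces `F j = 0`, `j ≠ k`, and the
gradients of these equations are linearly independent at its generic point `z`. -/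
def DominatedBySection {κ : Type} [DecidableEq κ] {N : ℕ} (L : Type) [Field L] [Algebra ℂ L]
    (n : ℕ) (F : κ → MvPolynomial (Fin (N + 1)) ℂ) (k : κ) : Prop :=
  ∃ (M : Type) (_ : Field M) (_ : Algebra ℂ M) (H : MvPolynomial (Fin (N + 1)) ℂ)
    (z : Fin (N + 1) → M) (i : Fin (N + 1)), H.IsHomogeneous 1 ∧ H ≠ 0 ∧
      IsGenericPoint n (Function.update F k H) i z ∧ IsTransversal (Function.update F k H) z ∧
      Nonempty (L →ₐ[ℂ] M)

/-- **Images of complete intersections under maps with fibres on rational normal curves.** Let `V`
be a component, of dimension `n ≥ 1`, of the intersection of the hypersurfaces `F k = 0` of degrees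
`d k`, `k ∈ κ`, in `P^N`, `N = n + |κ|`, with function field `K`. Let either the complete
intersection be smooth, with `Σ d k = m + N + 1`, or let it be reduced along `V`, and let the
divisor of some canonical form of `V` be at least `m` times the hyperplane section. Let `W` be a
smooth projective variety with function field `L` and `V ⇢ W` a dominant rational map of degree `r`.
Let `s ≥ 1` and `ρ = max(r, s m + 2)`, and let the points of the generic fibre lie on a rational
normal curve of degree `s` (and `ρ > 2 s`), or let the fibres be in uniform position in a space of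
dimension `s`, and `r ≤ s m + m / 2 + 1` (and `m ≠ 2` or `s ≤ 2`). Let `s d_k ≤ ρ + s m + 1`, and
`s d_j < ρ` for all `j ≠ k`. If `p_g(W) = 0` then `s m + 2 ≤ r ≤ s d_k`, the points of the generic fibre lie on a
rational normal curve of degree `s`, and `W` is dominated by a component of a hyperplane section of
the intersection of the hypersurfaces `F j = 0`, `j ≠ k`. If moreover `Σ_{j ≠ k} d j ≤ N - 2` then
`p_g(W) = 0` if and only if `κ(W) = -∞`, if and only if `K_W` is not pseudo-effective, if and only
if `W` is uniruled. If `V` is a hypersurface then all this is equivalent to `W` being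
unirational. -/
theorem result {n N m s : ℕ} (hn : 1 ≤ n) (hs : 1 ≤ s) {κ : Type} [Fintype κ] [DecidableEq κ]
    (hN : n + Fintype.card κ = N) {F : κ → MvPolynomial (Fin (N + 1)) ℂ} {d : κ → ℕ}
    (hd : ∀ k, (F k).IsHomogeneous (d k)) {K : Type} [Field K] [Algebra ℂ K] {i : Fin (N + 1)}
    {x : Fin (N + 1) → K} (hx : IsGenericPoint n F i x)
    (hV : (IsSmooth F ∧ ∑ k, d k = m + N + 1) ∨ (IsTransversal F x ∧ HasForm n m x))
    (L : Type) [Field L] [Algebra ℂ L] [Algebra L K] [IsScalarTower ℂ L K]
    [FiniteDimensional L K] {ρ : ℕ} (hρ : ρ = max (Module.finrank L K) (s * m + 2))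
    (hfib : (OnNormalCurve L x s ∧ 2 * s < ρ) ∨
      (UniformPosition L x s ∧ Module.finrank L K ≤ s * m + m / 2 + 1 ∧ (m ≠ 2 ∨ s ≤ 2)))
    (k : κ) (hk : s * d k ≤ ρ + s * m + 1) (hj : ∀ j, j ≠ k → s * d j < ρ) :
    (GenusZero L n → s * m + 2 ≤ Module.finrank L K ∧ Module.finrank L K ≤ s * d k ∧
      OnNormalCurve L x s ∧ DominatedBySection L n F k) ∧
    (∑ j, d j + 2 ≤ N + d k →
      [GenusZero L n, ¬ KodGe ℂ L n (fun _ => False) 0, ¬ Psef ℂ L n (fun _ => False),
        IsUniruled ℂ L n].TFAE) ∧
    (Fintype.card κ = 1 →
      [GenusZero L n, ¬ KodGe ℂ L n (fun _ => False) 0, ¬ Psef ℂ L n (fun _ => False),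
        IsUniruled ℂ L n, IsUnirational L n].TFAE) := by
  classical
  have hessK : Algebra.EssFiniteType ℂ K := by
    rw [← IntermediateField.fg_top_iff]
    exact ⟨Finset.univ.image x, by
      rw [Finset.coe_image, Finset.coe_univ, Set.image_univ, hx.gen]⟩
  have hessL : Algebra.EssFiniteType ℂ L := Pool.Agent.TH466.QG.ess_below (K := K)
  have hcL : CharZero L := charZero_of_injective_algebraMap (algebraMap ℂ L).injective
  have hL : Algebra.trdeg ℂ L = n := Pool.Agent.Y184.NT.trdeg_below (K := K) hx.dim
  have hi0 : x i ≠ 0 := by
    rw [hx.one]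
    exact one_ne_zero
  obtain ⟨v, hv⟩ := Pool.Agent.Helper37K9.CI.exists_coord x (d := n) (by
    rw [hx.gen]
    have h1 : Algebra.trdeg ℂ (⊤ : IntermediateField ℂ K) = Algebra.trdeg ℂ K :=
      IntermediateField.topEquiv.trdeg_eq
    rw [h1, hx.dim])
  have hcard1 : 1 ≤ Fintype.card κ := Fintype.card_pos_iff.2 ⟨k⟩
  obtain ⟨N', rfl⟩ : ∃ N', N = N' + 1 := ⟨N - 1, by omega⟩
  have hgr : IsTransversal F x := by
    rcases hV with ⟨hsm, -⟩ | ⟨h, -⟩
    · obtain ⟨S, hS⟩ := Pool.Agent.TH145.SP.exists_minor_ne hsm hi0 hx.zero
      exact Pool.Agent.Helper37K9.CI.ind_of_jac hS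
    · exact h
  obtain ⟨ω, hω, hω0, hreg⟩ : HasForm n m x := by
    rcases hV with ⟨hsm, hm⟩ | ⟨-, h⟩
    · obtain ⟨ω, hω, hω0, hreg⟩ := Pool.Agent.Helper37K9.CI.exists_form hd hsm (m := m) (by omega)
        hN hx.zero hx.one hv
      exact ⟨ω, hω, hω0, fun f P _ => hreg f P⟩
    · exact h
  have hNLG : Pool.Agent.Y184.NT.StNLG := Pool.Agent.Y944.NT.stNLG
    (Pool.Agent.Y297.NT.t_Pull Pool.Agent.Y71.NT.t_abh) Pool.Agent.Y929.NT.t_W0
    Pool.Agent.Y888.NT.stDer
  -- the curve
  have hcurve : GenusZero L n → Nonempty (Pool.Agent.Helper37K9.RN.Rnc (AlgebraicClosure L)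
      (Pool.Agent.Helper37K9.RN.pts L (AlgebraicClosure L) x) s) ∧
      s * m + 1 < Module.finrank L K ∧ 2 * s < Module.finrank L K := by
    intro hg
    rcases hfib with ⟨⟨w, t, c, hw, hc⟩, hm⟩ | ⟨⟨h1, h2, h3⟩, h4, h5⟩
    · obtain ⟨D⟩ := Pool.Agent.Helper37K9.RN.rnc_of (L := L) hx.one hx.gen hw hc
      have h1 := Pool.Agent.Helper37K9.RN.card_of_curve hL hω hω0 hreg hg D
      refine ⟨⟨D⟩, h1, ?_⟩
      rw [hρ, max_eq_left (by omega)] at hm
      exact hm
    · have hG : Pool.Agent.Helper37K9.RN.GenPos (F := AlgebraicClosure L)
          (Pool.Agent.Helper37K9.RN.pts L (AlgebraicClosure L) x) s := by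
        rcases h2 with h2 | h2
        · exact ⟨h2, h1⟩
        · exact Pool.Agent.Helper37K9.RN.genPos h2 h1
      have hU : Pool.Agent.Helper37K9.RN.Unif
          (Pool.Agent.Helper37K9.RN.pts L (AlgebraicClosure L) x) s := by
        rcases h3 with h3 | h3
        · exact h3
        · exact Pool.Agent.Helper37K9.RN.unif h3
      obtain ⟨⟨D⟩, h6⟩ := Pool.Agent.Helper37K9.RN.rnc_of_uniform hNLG hd hN hx.dim hx.one hx.gen
        hx.zero hgr hω hω0 hreg hg hs hG hU h4 h5
      exact ⟨⟨D⟩, Pool.Agent.Helper37K9.RN.card_of_curve hL hω hω0 hreg hg D, h6⟩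
  -- the structure
  have hρr : GenusZero L n → ρ = Module.finrank L K := by
    intro hg
    have h1 := (hcurve hg).2.1
    rw [hρ, max_eq_left (by omega)]
  have hstr : GenusZero L n → _ := fun hg =>
    Pool.Agent.Helper37K9.RN.structure_rnc (L := L) Pool.Agent.Helper44K9.RN.stRel hNLG
      Pool.Agent.Y929.NT.t_W0 Pool.Agent.Y888.NT.stDer hd hN hn hx.dim hx.one hx.gen hx.zero hgr
      hω hω0 hreg hg hs (hcurve hg).1.some (hcurve hg).2.2 k
      (by rw [← hρr hg]; omega) (fun j hjk => by rw [← hρr hg]; exact hj j hjk)
  have huni : ∑ j, d j + 2 ≤ N' + 1 + d k → GenusZero L n → IsUniruled ℂ L n := by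
    intro hdeg hg
    obtain ⟨M, iM1, iM2, ⟨ψ⟩, hM, H, z, hH, hH0, hz0, -, hzgen, hz, hind⟩ := hstr hg
    exact Pool.Agent.Helper37K9.RN.uniruled_down
      (Pool.Agent.Helper37K9.CI.uniruled_thm hd hN hM hH hz0 hzgen hz hind (by omega)) ψ
  refine ⟨fun hg => ?_, fun hdeg => ?_, fun hcard => ?_⟩
  · obtain ⟨⟨D⟩, h1, h2⟩ := hcurve hg
    refine ⟨by omega, ?_, ⟨D.w, D.t, D.c, D.ind, D.eq⟩, ?_⟩
    · exact Pool.Agent.Helper37K9.RN.le_of_curve hNLG hd hN hx.dim hx.one hx.gen hx.zero hgr hω
        hω0 hreg D (by omega) k (fun j hjk => by rw [← hρr hg]; exact hj j hjk)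
    · obtain ⟨M, iM1, iM2, ⟨ψ⟩, hM, H, z, hH, hH0, hz0, -, hzgen, hz, hind⟩ := hstr hg
      exact ⟨M, iM1, iM2, H, z, i, hH, hH0, ⟨hz0, hz, hzgen, hM⟩, hind, ⟨ψ⟩⟩
  · exact Pool.Agent.Helper37K9.CI.tfae_of hL (huni hdeg)
  · have hsum : ∑ j, d j = d k := by
      rw [Fintype.sum_eq_single k]
      intro j hjk
      exact absurd (Fintype.card_le_one_iff.1 (le_of_eq hcard) j k) hjk
    have htf := Pool.Agent.Helper37K9.CI.tfae_of hL (huni (by omega))
    have h15 : GenusZero L n → IsUnirational L n := by
      intro hg
      obtain ⟨M, iM1, iM2, ⟨ψ⟩, hM, H, z, hH, hH0, hz0, hza, hzgen, hz, hind⟩ := hstr hg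
      obtain rfl : N' = n := by omega
      obtain ⟨φ⟩ := Pool.Agent.Helper37K9.RN.purely_of_section hM hz0 hza hzgen
      exact ⟨φ.comp ψ⟩
    have h54 : IsUnirational L n → IsUniruled ℂ L n :=
      Pool.Agent.Helper37K9.RN.uniruled_of_unirational hn
    have h12 := htf.out 0 1
    have h13 := htf.out 0 2
    have h14 := htf.out 0 3
    tfae_have 1 ↔ 2 := h12
    tfae_have 1 ↔ 3 := h13
    tfae_have 1 ↔ 4 := h14
    tfae_have 1 → 5 := h15
    tfae_have 5 → 4 := h54
    tfae_finish

end Pool.Agent.Results.MP_e06174_ag.FibresOnNormalCurves
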