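import Pool.Agent.Helper11K9.OD.Main

/-!
# Images of degree `r` of products of curves of genus greater than `r / 2`

Let `V = C_1 × ... × C_n` be a product of smooth projective curves over the complex numbers (`n` is
arbitrary), of genera `g_i` and gonalities `γ_i`. Let `V ⇢ W` be any dominant rational map of degree
`r` to a smooth projective variety `W` of dimension `n`; nothing else is assumed about the map (it
need not be a quotient by a group, its ramification is arbitrary) or about `W`. Let `p` be the
smallest prime factor of `r`. Assume

* `r < 2 g_i` for all `i`;
* `r` is odd, or for all `i ≠ j` one of the two curves, say `C_i`, is not hyperelliptic and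
  `r + 2 < 2 g_i`;
* for all `i ≠ j`: `r < p γ_j` or `r < γ_i + p (γ_j - 2)`.

Then these are equivalent: `p_g(W) = 0`; `κ(W) = -∞`; `K_W` is not pseudo-effective; `W` is uniruled.

If `r` is prime then the third condition is empty: all hyperelliptic curves of genus greater than
`r / 2` are allowed if `r` is an odd prime.

All three conditions are needed in some form:
* (genus) `r = 3`, `E` the elliptic curve with an automorphism `w` of order `3` which acts by
  `exp (2 π i / 3)` on the differentials, `W` the quotient of `E^4` by `(w, w, w, w^2)`;
* (parity) `r = 2` and `W` the quotient of a product of three hyperelliptic curves by the diagonal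
  hyperelliptic involution;
* (gonality) `r = q l` with `l` prime, `W = (E × C_2) / (ℤ / l)` with `E` elliptic, `ℤ / l` acting by
  translations on `E` and with a rational quotient of `C_2`, and `C_1` a covering of `E` of degree
  `q`: here `γ_1 = 2 q`, `γ_2 = l` is possible, so that for `q = p` the third condition fails by the
  equality `r = γ_1 + p (γ_2 - 2) = p γ_2`.
In these examples `p_g(W) = 0` but `W` is not uniruled. (They are not formalised here.)

Proof. Let `K` be the function field of `V` and `L` the one of `W`. If `p_g(W) = 0` then the traces
to `L` of the exterior products of regular differentials of the curves are zero.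

(1) Clifford's theorem. Let `S` be a set of distinct points of a curve `C` of genus `g`. If
a regular differential vanishes on `S` then the rank of the evaluations at the points of `S` on
the differentials is at least `|S| / 2`. This follows from Hopf's inequality
`dim A + dim B ≤ dim AB + 1` and from the duality between functions with poles and differentials,
which comes from residues of traces to `ℂ(x)`. Equality, in the presence of two independent such
differentials, descends to proper subsets of `S`, and ends in a pencil of degree two. By
specialisation the same holds for distinct embeddings of the function field of `C`.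

(2) Two curves. Let `M` be a field of degree `d` over `E`, generated over `E` by the function fields
`F_1`, `F_2` of two of the curves, where `d` divides `r`, and let `c` be an element of `M` such that
the traces to `E` of the products of `c` and of differentials of `F_1` and of `F_2` are zero. Assume
that the degree of `E(F_i)` over `E` is at least `γ_i`. If `E(F_1) = E(F_2) = M` then the differentials
span spaces whose dimensions have a sum greater than `d`, by (1), so that `c = 0`. If `E(F_2)` is
smaller then `[M : E(F_2)] ≥ p`; we choose `γ_2 - 2` embeddings of `F_2` and a combination of
differentials of `F_2` which vanishes at them and not at another one; this removes all but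
`d - [M : E(F_2)] (γ_2 - 2)` embeddings of `M`, and by the third condition the remaining embeddings of
`F_1` are fewer than `γ_1`, hence linearly independent on the differentials; so `c = 0` again.

(3) Hence, as long as at least two factors remain, one or two of them can be removed, where the field
`E` is enlarged so that it contains their function fields and the traces to `E` remain zero. At the
end `E` contains the function fields of all factors but one, and the fibration by curves obtained in
this way has rational fibres.

The function-field language of the starting repository is used. A canonical form (`IsPluri 1`) on a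
variety of dimension `n` is a function of `n` rational vector fields; it is regular at the prime
divisor `P` (`Place`, `Divisorial`, `RegAt`) if its value on vector fields which are regular at `P`
is regular at `P`; `GenusZero L n` says that all regular canonical forms are zero.
`KodGe ℂ L n (fun _ => False) 0` says that `κ(W) ≥ 0`, `Psef ℂ L n (fun _ => False)` that `K_W` is
pseudo-effective, `IsUniruled ℂ L n` that `W` is uniruled.
-/

set_option autoImplicit false
set_option linter.overlappingInstances false

open FF Pool.Agent.W602.GT
open Pool.Agent.W619.PQ (IsUniruled)
open Pool.Agent.R882.Over (GenusZero)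
open Pool.Agent.Helper11K9.OD (regularForms)

namespace Pool.Agent.Results.MP_e06174_ag.ImagesAndGenera

/-- `K` is the function field of a product of `n` curves over `ℂ`, and the `F i` are the function
fields of the curves (embedded in `K` by the projections): they are finitely generated of
transcendence degree one, they generate `K`, and the transcendence degree of `K` is `n`. -/
structure IsProductOfCurves {K : Type} [Field K] [Algebra ℂ K] {n : ℕ}
    (F : Fin n → IntermediateField ℂ K) : Prop where
  curve : ∀ i, IsFF ℂ (F i)
  gen : ⨆ i, F i = ⊤
  dim : Algebra.trdeg ℂ K = n

/-- The gonality of a curve with the function field `F`: the least degree of a nonconstant rational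
function `t`, that is, of `F` over `ℂ(t)`. -/
noncomputable def gonality (F : Type) [Field F] [Algebra ℂ F] : ℕ :=
  sInf {d : ℕ | ∃ t : F, Transcendental ℂ t ∧
    d = Module.finrank (IntermediateField.adjoin ℂ {t}) F}

/-- The genus of a curve with the function field `F`: the dimension of the space `regularForms F` of
regular differential forms. -/
noncomputable def genus (F : Type) [Field F] [Algebra ℂ F] : ℕ :=
  Module.finrank ℂ (regularForms F)

/-- The definition of `regularForms`: a differential form `ω` on a curve with the function field `F`,
an `F`-linear map from the rational vector fields (the derivations of `F`) to `F`, is regular if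
`ω δ` has no pole at `P` for all points (places) `P` and all vector fields `δ` regular at `P`. -/
theorem mem_regularForms {F : Type} [Field F] [Algebra ℂ F] {ω : Derivation ℂ F F →ₗ[F] F} :
    ω ∈ regularForms F ↔ ∀ (P : Place ℂ F) (δ : Derivation ℂ F F),
      (∀ f, P.Reg f → P.Reg (δ f)) → P.Reg (ω δ) := Iff.rfl

/-- **Images of products of curves of large genus.** Let `K` be the function field of a product of
`n` curves with the function fields `F i` and let `L` be a subfield of finite index `r` (the function
field of a smooth projective variety `W` dominated by the product, with degree `r = [K : L]`). Assume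
that `r < 2 * genus (F i)` for all `i`, that `r` is odd or for all `i ≠ j` one of the two curves has
gonality at least three and twice its genus is greater than `r + 2`, and that for all `i ≠ j`, with
the smallest prime factor `p` of `r`, `r < p * gonality (F j)` or
`r < gonality (F i) + p * (gonality (F j) - 2)`. Then `p_g(W) = 0`, `κ(W) = -∞`, `K_W` is not
pseudo-effective and `W` is uniruled are equivalent. -/
theorem result {n : ℕ} {K : Type} [Field K] [Algebra ℂ K] (F : Fin n → IntermediateField ℂ K)
    (hF : IsProductOfCurves F) (L : IntermediateField ℂ K) [FiniteDimensional L K] (r : ℕ)
    (hr : Module.finrank L K = r) (hgenus : ∀ i, r < 2 * genus (F i))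
    (hparity : Odd r ∨ ∀ i j, i ≠ j →
      (3 ≤ gonality (F i) ∧ r + 2 < 2 * genus (F i)) ∨
      (3 ≤ gonality (F j) ∧ r + 2 < 2 * genus (F j)))
    (hgonality : ∀ i j, i ≠ j → r < r.minFac * gonality (F j) ∨
      r < gonality (F i) + r.minFac * (gonality (F j) - 2)) :
    [GenusZero L n, ¬ KodGe ℂ L n (fun _ => False) 0, ¬ Psef ℂ L n (fun _ => False),
      IsUniruled ℂ L n].TFAE := by
  have hcurve := hF.curve
  have hessK : Algebra.EssFiniteType ℂ K := Pool.Agent.Helper11K9.PC.ess_top F hF.gen
  have hessL : Algebra.EssFiniteType ℂ L := Pool.Agent.TH466.QG.ess_below (K := K)
  have hL : Algebra.trdeg ℂ L = n := Pool.Agent.Y184.NT.trdeg_below (K := K) hF.dim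
  subst hr
  have hγ : ∀ i (t : F i), Transcendental ℂ t →
      gonality (F i) ≤ Module.finrank (IntermediateField.adjoin ℂ {t}) (F i) :=
    fun i t ht => Nat.sInf_le ⟨t, ht, rfl⟩
  have hγ2 : ∀ i, 2 ≤ gonality (F i) := by
    intro i
    have hne : {d : ℕ | ∃ t : F i, Transcendental ℂ t ∧
        d = Module.finrank (IntermediateField.adjoin ℂ {t}) (F i)}.Nonempty := by
      obtain ⟨t, ht⟩ := IsFF.exists_transcendental (k := ℂ) (K := F i)
      exact ⟨_, t, ht, rfl⟩
    obtain ⟨t, ht, hd⟩ := Nat.sInf_mem hne
    have h1 : gonality (F i) = Module.finrank (IntermediateField.adjoin ℂ {t}) (F i) := hd
    rw [h1]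
    refine Pool.Agent.Helper11K9.OD.two_le ?_ ht
    have h2 := hgenus i
    unfold genus at h2
    omega
  have key : GenusZero L n → IsUniruled ℂ L n := fun hg =>
    Pool.Agent.Helper11K9.OD.images F hF.gen hF.dim hγ hγ2 L
      (p := (Module.finrank L K).minFac)
      (fun q hq hq1 => (Nat.minFac_le_of_dvd (by
        rcases Nat.eq_zero_or_pos q with h | h
        · exfalso
          subst h
          have h1 : 0 < Module.finrank L K := Module.finrank_pos
          have h2 := Nat.eq_zero_of_zero_dvd hq
          omega
        · omega) hq))
      (fun i j hij => by
        rcases hparity with h | h
        · exact Or.inl h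
        · exact Or.inr (h i j hij)) hgenus hgonality hg
  have h21 : ¬ KodGe ℂ L n (fun _ => False) 0 → GenusZero L n := by
    intro h ω hω hreg D
    by_contra hne
    refine h ⟨1, one_pos, fun _ => ω, fun _ => ⟨hω, fun P hP D' hD' => ?_,
      fun P hP _ => hreg P hP⟩, D, hne, ?_⟩
    · exact hreg P hP D' fun i => Pool.Agent.TH466.QG.derReg_of_log (hD' i)
    · exact algebraicIndependent_empty_type
  have h43 : IsUniruled ℂ L n → ¬ Psef ℂ L n (fun _ => False) := fun h h' =>
    (Pool.Agent.W619.Y.uniruled_neg n hL h).1 ((Pool.Agent.TH466.QG.psef_iff n).1 h')
  have h32 : ¬ Psef ℂ L n (fun _ => False) → ¬ KodGe ℂ L n (fun _ => False) 0 :=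
    fun h h' => h (psef_of_kodGe h')
  tfae_have 1 → 4 := key
  tfae_have 4 → 3 := h43
  tfae_have 3 → 2 := h32
  tfae_have 2 → 1 := h21
  tfae_finish

end Pool.Agent.Results.MP_e06174_ag.ImagesAndGenera
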