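import Pool.Agent.Helper37K9.RN.MainA

/-!
# Images under maps whose general fibre is in uniform position

Let `V ⊆ P^N` be a projective variety of dimension `n`, such that the divisor of some canonical form
of `V` is at least `m` times the hyperplane section (for instance a smooth complete intersection
with `K_V = O(m)`; in general `V` may be singular). Let `W` be any smooth projective variety with a
dominant rational map `V ⇢ W` of degree `r`, whose general fibre spans a linear space of dimension
`s` and is in uniform position there: any `s + 1` points of the fibre are linearly independent, and,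
for the second part, if some `2 s + 2` points of the fibre impose independent conditions on quadrics
then so do all sets of `2 s + 2` points of the fibre. This is so, for instance, if the monodromy
group of the map is the symmetric or the alternating group; it is enough that it is transitive on
the sets of `s + 1` points and on the sets of `2 s + 2` points. The theorem:

* if `r ≤ s m + 1` then `p_g(W) > 0`;
* if `r ≤ s m + m / 2 + 1`, and `V` is an irreducible component of the intersection of the
  hypersurfaces of degree at most `k` which contain it, for some `k ≤ r / s - 1`, then
  `p_g(W) > 0`.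

In particular `κ(W) ≥ 0`, `K_W` is pseudo-effective and `W` is not uniruled. There are no
restrictions on `s`; the results of the starting repository on images of hypersurfaces and complete
intersections, in which nothing is assumed on the fibres, concern the degrees `r ≤ 2 m + 1`.

Proof. The traces of the canonical forms `A ω`, `A` of degree `m`, are canonical forms of `W`. If
`p_g(W) = 0` then there is a linear relation, with coefficients different from zero, between the
values at the `r` points of the fibre over the generic point of `W` of the forms of degree `m`. Any
`s + 1` of the points impose independent conditions on linear forms, hence any `s m + 1` of the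
points impose independent conditions on forms of degree `m`, so that `r ≥ s m + 2`. If the sets of
`2 s + 2` points impose independent conditions on quadrics, then any `s m + [m / 2] + 1` of the
points impose independent conditions on forms of degree `m`, so that `r ≥ s m + [m / 2] + 2`.
Otherwise the quadrics which contain `2 s + 1` of the points contain all of them, and the lemma of
Castelnuovo gives a rational curve of degree at most `s` which contains (all but at most `s - 1` of)
the `r ≥ 2 s + 2` points. By Bezout it is contained in the hypersurfaces of degree at most `k` which
contain `V`, and then in `V`. The points of the fibre over the generic point are generic points of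
`V`, so `V` is uniruled; but `V` has a regular canonical form.

The function-field language of the starting repository is used: `K` is the function field of `V`,
and `L`, a subfield of `K`, the function field of `W`. A canonical form (`IsPluri 1`) on a variety
of dimension `n` is a function of `n` rational vector fields; it is regular at the prime divisor `P`
(`Place`, `Divisorial`, `RegAt`) if its value on vector fields which are regular at `P` is regular
at `P`. `KodGe ℂ L n (fun _ => False) 0` says that `κ(W) ≥ 0`, `Psef ℂ L n (fun _ => False)` that
`K_W` is pseudo-effective (`Pool/Agent/W602/GT`), `IsUniruled ℂ L n` that `W` is uniruled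
(`Pool/Agent/W619/PQ/Defs.lean`). The points of the fibre over the (geometric) generic point of `W`
are the conjugates of the generic point `x` of `V` over `L`.
-/

set_option autoImplicit false
set_option linter.overlappingInstances false

open FF MvPolynomial Pool.Agent.W602.GT
open Pool.Agent.W619.PQ (IsUniruled)

namespace Pool.Agent.Results.MP_e06174_ag.ImagesInUniformPosition

section

variable {K : Type} [Field K] [Algebra ℂ K] {N : ℕ}

/-- `x` is the generic point of a variety of dimension `n` in projective `N`-space, and `K` is its
function field; the homogeneous coordinates are normalised by `x i = 1`. -/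
structure IsGenericPoint (n : ℕ) (i : Fin (N + 1)) (x : Fin (N + 1) → K) : Prop where
  one : x i = 1
  gen : IntermediateField.adjoin ℂ (Set.range x) = ⊤
  dim : Algebra.trdeg ℂ K = n

/-- There is a canonical form `ω ≠ 0` such that the canonical forms `A ω` are regular at all prime
divisors for all monomials (hence for all forms) `A` of degree `m` in the homogeneous coordinates
`x`: the divisor of `ω`, on all smooth models, is at least `m` times the hyperplane section. -/
def HasForm (n m : ℕ) (x : Fin (N + 1) → K) : Prop :=
  ∃ ω : (Fin n → Derivation ℂ K K) → K, IsPluri 1 ω ∧ (∃ D, ω D ≠ 0) ∧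
    ∀ (f : Fin m → Fin (N + 1)) (P : Place ℂ K), Divisorial n P →
      RegAt P (fun D => (∏ k, x (f k)) * ω D)

/-- The variety `V` with generic point `x` is an irreducible component of the intersection of the
hypersurfaces of degree at most `k` which contain it: if the point `y` lies on all these
hypersurfaces, and if all the forms which vanish at `y` vanish at `x` (that is, `V` is contained in
the irreducible closed set with generic point `y`), then the forms which vanish at `x` vanish at
`y` (that is, `V` is this set). -/
def IsCut (k : ℕ) (x : Fin (N + 1) → K) : Prop :=
  ∀ (R : Type) [Field R] [Algebra ℂ R] (y : Fin (N + 1) → R),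
    (∀ (e : ℕ) (G : MvPolynomial (Fin (N + 1)) ℂ), e ≤ k → G.IsHomogeneous e →
      aeval x G = 0 → aeval y G = 0) →
    (∀ (e : ℕ) (G : MvPolynomial (Fin (N + 1)) ℂ), G.IsHomogeneous e →
      aeval y G = 0 → aeval x G = 0) →
    ∀ (e : ℕ) (G : MvPolynomial (Fin (N + 1)) ℂ), G.IsHomogeneous e →
      aeval x G = 0 → aeval y G = 0

/-- The points of the fibre of `V ⇢ W` over the geometric generic point of `W`: the conjugates of
the generic point `x` over `L`. -/
noncomputable def conj (L : Type) [Field L] [Algebra L K] (x : Fin (N + 1) → K) (σ : K →ₐ[L] AlgebraicClosure L)
    (j : Fin (N + 1)) : AlgebraicClosure L := σ (x j)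

/-- The points of the generic fibre span a linear space of dimension `s`. -/
def FibreSpans (L : Type) [Field L] [Algebra L K] (x : Fin (N + 1) → K) (s : ℕ) : Prop :=
  Module.finrank (AlgebraicClosure L)
    (Submodule.span (AlgebraicClosure L) (Set.range (conj L x))) = s + 1

/-- Any `s + 1` points of the generic fibre are linearly independent. -/
def LinearlyGeneral (L : Type) [Field L] [Algebra L K] (x : Fin (N + 1) → K) (s : ℕ) : Prop :=
  ∀ S : Finset (K →ₐ[L] AlgebraicClosure L), S.card = s + 1 →
    LinearIndependent (AlgebraicClosure L) fun σ : S => conj L x σ

/-- The points of the set `S` of points of the generic fibre impose independent conditions on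
quadrics: for each of them some quadric contains exactly the others. -/
def ImposeIndependent (L : Type) [Field L] [Algebra L K] (x : Fin (N + 1) → K)
    (S : Finset (K →ₐ[L] AlgebraicClosure L)) : Prop :=
  ∀ σ ∈ S, ∃ Q : MvPolynomial (Fin (N + 1)) (AlgebraicClosure L), Q.IsHomogeneous 2 ∧
    eval (conj L x σ) Q ≠ 0 ∧ ∀ τ ∈ S, τ ≠ σ → eval (conj L x τ) Q = 0

/-- If some `2 s + 2` points of the generic fibre impose independent conditions on quadrics, then so
do all sets of `2 s + 2` points of the generic fibre. -/
def QuadricallyUniform (L : Type) [Field L] [Algebra L K] (x : Fin (N + 1) → K) (s : ℕ) : Prop :=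
  ∀ S T : Finset (K →ₐ[L] AlgebraicClosure L), S.card = 2 * s + 2 → T.card = 2 * s + 2 →
    ImposeIndependent L x S → ImposeIndependent L x T

end

/-- The monodromy group of `V ⇢ W` acts transitively on the sets of `k` points of the generic
fibre. -/
def IsTransitiveOn (L K : Type) [Field L] [Field K] [Algebra L K] (k : ℕ) : Prop :=
  ∀ S T : Finset (K →ₐ[L] AlgebraicClosure L), S.card = k → T.card = k →
    ∃ g : AlgebraicClosure L ≃ₐ[L] AlgebraicClosure L,
      ∀ σ, σ ∈ S ↔ (g : AlgebraicClosure L →ₐ[L] AlgebraicClosure L).comp σ ∈ T

/-- The geometric genus is zero: the only canonical form which is regular at all prime divisors is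
`0`. -/
def GenusZero (L : Type) [Field L] [Algebra ℂ L] (n : ℕ) : Prop :=
  ∀ ω : (Fin n → Derivation ℂ L L) → L, IsPluri 1 ω →
    (∀ P : Place ℂ L, Divisorial n P → RegAt P ω) → ∀ D, ω D = 0

/-- **Images under maps with fibres in uniform position.** Let `V ⊆ P^N` be a variety of dimension
`n` with function field `K`, such that the divisor of some canonical form of `V` is at least `m`
times the hyperplane section. Let `W` be a smooth projective variety with function field `L` and
`V ⇢ W` a dominant rational map of degree `r`, whose generic fibre spans a linear space of dimension
`s`. Let any `s + 1` points of it be linearly independent, or let the monodromy group be transitive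
on the sets of `s + 1` points of it. If `r ≤ s m + 1` then `p_g(W) > 0`, so that `κ(W) ≥ 0`, `K_W`
is pseudo-effective and `W` is not uniruled. The same is true if `r ≤ s m + m / 2 + 1`,
`r ≥ s (k + 1)`, `V` is an irreducible component of the intersection of the hypersurfaces of degree
at most `k` which contain it, and the sets of `2 s + 2` points of the fibre are in uniform position
with respect to quadrics, or the monodromy group is transitive on them. -/
theorem result {n N m s : ℕ} {K : Type} [Field K] [Algebra ℂ K] {i : Fin (N + 1)}
    {x : Fin (N + 1) → K} (hx : IsGenericPoint n i x) (hV : HasForm n m x)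
    (L : Type) [Field L] [Algebra ℂ L] [Algebra L K] [IsScalarTower ℂ L K]
    [FiniteDimensional L K] (hs : FibreSpans L x s)
    (h1 : LinearlyGeneral L x s ∨ IsTransitiveOn L K (s + 1))
    (h2 : Module.finrank L K ≤ s * m + 1 ∨
      (Module.finrank L K ≤ s * m + m / 2 + 1 ∧
        (QuadricallyUniform L x s ∨ IsTransitiveOn L K (2 * s + 2)) ∧
        ∃ k : ℕ, IsCut k x ∧ s * (k + 1) ≤ Module.finrank L K)) :
    ¬ GenusZero L n ∧ KodGe ℂ L n (fun _ => False) 0 ∧ Psef ℂ L n (fun _ => False) ∧
      ¬ IsUniruled ℂ L n := by
  classical
  have hessK : Algebra.EssFiniteType ℂ K := by
    rw [← IntermediateField.fg_top_iff]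
    exact ⟨Finset.univ.image x, by
      rw [Finset.coe_image, Finset.coe_univ, Set.image_univ, hx.gen]⟩
  have hessL : Algebra.EssFiniteType ℂ L := Pool.Agent.TH466.QG.ess_below (K := K)
  have hcL : CharZero L := charZero_of_injective_algebraMap (algebraMap ℂ L).injective
  have hL : Algebra.trdeg ℂ L = n := Pool.Agent.Y184.NT.trdeg_below (K := K) hx.dim
  obtain ⟨ω, hω, hω0, hreg⟩ := hV
  have hG : Pool.Agent.Helper37K9.RN.GenPos (F := AlgebraicClosure L)
      (Pool.Agent.Helper37K9.RN.pts L (AlgebraicClosure L) x) s := by
    rcases h1 with h1 | h1
    · exact ⟨h1, hs⟩
    · exact Pool.Agent.Helper37K9.RN.genPos h1 hs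
  have main : ¬ GenusZero L n := by
    intro hpg
    rcases h2 with h2 | ⟨h2, h3, k, h4, h5⟩
    · exact Pool.Agent.Helper37K9.RN.partA1 hL hω hω0 hreg hpg hG h2
    · refine Pool.Agent.Helper37K9.RN.partA2 hx.dim hx.one hx.gen hω hω0 hreg hpg hG ?_ h2 h4 h5
      rcases h3 with h3 | h3
      · exact h3
      · exact Pool.Agent.Helper37K9.RN.unif h3
  have htf := Pool.Agent.Helper37K9.CI.tfae_of hL (fun hg => absurd hg main)
  refine ⟨main, ?_, ?_, ?_⟩
  · by_contra hcon
    exact main ((htf.out 0 1).2 hcon)
  · by_contra hcon
    exact main ((htf.out 0 2).2 hcon)
  · intro hcon
    exact main ((htf.out 0 3).2 hcon)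

end Pool.Agent.Results.MP_e06174_ag.ImagesInUniformPosition
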