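import Pool.Agent.Helper37K9.CI.Main

/-!
# Negative Kodaira dimension and uniruledness of the images of complete intersections

Let `V` be a smooth complete intersection of dimension `n ≥ 1` of hypersurfaces `F_k = 0` of
degrees `d_k`, `k ∈ κ`, in the projective space `P^N`, with `K_V = O(m)`, `m = Σ d_k - N - 1 ≥ 0`.
Let `W` be any smooth projective variety with a dominant rational map `V ⇢ W` of degree `r`; nothing
is assumed about the map (it need not be a quotient by a group, and its ramification is arbitrary)
or about `W`. The theorem:

* if `r ≤ m + 1` then `p_g(W) > 0`;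
* let `r ≤ 2 m + 1` and `ρ = max(r, m + 2)`, let `d_k ≥ ρ` for at most one `k`, and let
  `d_k ≤ ρ + m + 1` for all `k`. If `p_g(W) = 0` then there is a `k` with `d_k ≥ r ≥ m + 2` such that
  `W` is birational to a component of a hyperplane section of the complete intersection of the
  hypersurfaces `F_j = 0`, `j ≠ k`. If moreover no `d_k` is equal to `m + 2`, then these are
  equivalent: `p_g(W) = 0`; `κ(W) = -∞`; `K_W` is not pseudo-effective; `W` is uniruled.

For instance, if `m ≥ n` (then `d_k ≥ m + 2` for at most one `k`) and all degrees are at most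
`2 m + 3` and different from `m + 2`, then this applies to all `r ≤ 2 m + 1`.

More generally `V` may be any component of dimension `n`, arbitrarily singular, of a complete
intersection which is reduced along it, if some canonical form of `V` vanishes at least `m` times on
the hyperplane sections, for some `m ≥ 0`; then the condition that no `d_k` is equal to `m + 2` is
replaced by the condition that `Σ_{j ≠ k} d_j ≤ N - 2` for all `k` with `d_k ≥ ρ`.

Proof. The traces of the canonical forms `A ω`, `A` of degree `m`, are canonical forms of `W`. If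
`p_g(W) = 0` then the fibres satisfy the Cayley–Bacharach condition for the forms of degree `m`, so
that `r ≥ m + 2`, and, since `r ≤ 2 m + 1`, they are collinear. The lines are not contained in `V`,
because `V` is not uniruled; each form `F_j` which does not vanish on the line through the fibre
over the generic point has degree at least `r`, so this happens for one form `F_k` only. The lines
are contained in the complete intersection `Y` of the other hypersurfaces, and the residual
intersection with `F_k = 0` has degree at most `m + 1`. A component of the residual intersection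
which dominates `V` would dominate `V` and `W`, with a degree at most `m + 1` over `W`; the traces of
the forms `A ω` to `W` then do not vanish. By a ramification argument at the divisor `V` of `Y`, the
lines form a congruence of order one: a general point of `Y` lies on one of them. Hence `W` is
birational to a component of a hyperplane section of `Y`, along which this section is smooth of
codimension `|κ|`. If the sum of the degrees of its equations is at most `N - 1` then there are lines
through the generic point, contained in the section (a system of `Σ e_k + 1 ≤ N` equations in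
`N + 1` unknowns has a solution); a specialisation shows that it is uniruled.

The function-field language of the starting repository is used: `K` is the function field of `V`,
and `L`, a subfield of `K`, the function field of `W`. A canonical form (`IsPluri 1`) on a variety
of dimension `n` is a function of `n` rational vector fields; it is regular at the prime divisor `P`
(`Place`, `Divisorial`, `RegAt`) if its value on vector fields which are regular at `P` is regular
at `P`. `KodGe ℂ L n (fun _ => False) 0` says that `κ(W) ≥ 0`, `Psef ℂ L n (fun _ => False)` that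
`K_W` is pseudo-effective (`Pool/Agent/W602/GT`), `IsUniruled ℂ L n` that `W` is uniruled
(`Pool/Agent/W619/PQ/Defs.lean`).
-/

set_option autoImplicit false
set_option linter.overlappingInstances false
set_option linter.unusedDecidableInType false

open FF MvPolynomial Pool.Agent.W602.GT
open Pool.Agent.W619.PQ (IsUniruled)

namespace Pool.Agent.Results.MP_e06174_ag.ImagesOfCompleteIntersections

section

variable {κ : Type} {N : ℕ}

/-- The hypersurfaces `F k = 0` of projective `N`-space meet transversally: the gradients of the
equations are linearly independent at all common zeros. -/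
def IsSmooth (F : κ → MvPolynomial (Fin (N + 1)) ℂ) : Prop :=
  ∀ z : Fin (N + 1) → ℂ, z ≠ 0 → (∀ k, eval z (F k) = 0) →
    LinearIndependent ℂ fun (k : κ) (l : Fin (N + 1)) => eval z (pderiv l (F k))

variable {K : Type} [Field K] [Algebra ℂ K]

/-- `x` is the generic point of an irreducible component, of dimension `n`, of the intersection of
the hypersurfaces `F k = 0` of projective `N`-space, and `K` is its function field; the homogeneous
coordinates are normalised by `x i = 1`. -/
structure IsGenericPoint (n : ℕ) (F : κ → MvPolynomial (Fin (N + 1)) ℂ) (i : Fin (N + 1))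
    (x : Fin (N + 1) → K) : Prop where
  one : x i = 1
  zero : ∀ k, aeval x (F k) = 0
  gen : IntermediateField.adjoin ℂ (Set.range x) = ⊤
  dim : Algebra.trdeg ℂ K = n

/-- The gradients of the equations are linearly independent at the generic point. -/
def IsTransversal (F : κ → MvPolynomial (Fin (N + 1)) ℂ) (x : Fin (N + 1) → K) : Prop :=
  LinearIndependent K fun (k : κ) (l : Fin (N + 1)) => aeval x (pderiv l (F k))

/-- There is a canonical form `ω ≠ 0` such that the canonical forms `A ω` are regular at all prime
divisors for all monomials (hence for all forms) `A` of degree `m` in the homogeneous coordinates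
`x`: the divisor of `ω`, on all smooth models, is at least `m` times the hyperplane section. -/
def HasForm (n m : ℕ) (x : Fin (N + 1) → K) : Prop :=
  ∃ ω : (Fin n → Derivation ℂ K K) → K, IsPluri 1 ω ∧ (∃ D, ω D ≠ 0) ∧
    ∀ (f : Fin m → Fin (N + 1)) (P : Place ℂ K), Divisorial n P →
      RegAt P (fun D => (∏ k, x (f k)) * ω D)

end

/-- The geometric genus is zero: the only canonical form which is regular at all prime divisors is
`0`. -/
def GenusZero (L : Type) [Field L] [Algebra ℂ L] (n : ℕ) : Prop :=
  ∀ ω : (Fin n → Derivation ℂ L L) → L, IsPluri 1 ω →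
    (∀ P : Place ℂ L, Divisorial n P → RegAt P ω) → ∀ D, ω D = 0

/-- The varieties of dimension `n` with function field `L` are birational to a component of a
hyperplane section `H = 0` of the intersection of the hypersurfaces `F j = 0`, `j ≠ k`, and the
gradients of these equations are linearly independent at its generic point `z`. -/
def IsHyperplaneSection {κ : Type} [DecidableEq κ] {N : ℕ} (L : Type) [Field L] [Algebra ℂ L]
    (n : ℕ) (F : κ → MvPolynomial (Fin (N + 1)) ℂ) (k : κ) : Prop :=
  ∃ (H : MvPolynomial (Fin (N + 1)) ℂ) (z : Fin (N + 1) → L) (i : Fin (N + 1)),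
    H.IsHomogeneous 1 ∧ H ≠ 0 ∧ IsGenericPoint n (Function.update F k H) i z ∧
      IsTransversal (Function.update F k H) z

/-- **Images of complete intersections.** Let `V` be a component, of dimension `n ≥ 1`, of the
intersection of the hypersurfaces `F k = 0` of degrees `d k`, `k ∈ κ`, in `P^N`, `N = n + |κ|`, with
function field `K`. Let either the complete intersection be smooth, with `Σ d k = m + N + 1`, or let
it be reduced along `V`, and let the divisor of some canonical form of `V` be at least `m` times the
hyperplane section. Let `W` be a smooth projective variety with function field `L` and `V ⇢ W` a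
dominant rational map of degree `r`. If `r ≤ m + 1` then `p_g(W) > 0`. Let `r ≤ 2 m + 1` and
`ρ = max(r, m + 2)`, let `d k ≥ ρ` for at most one `k` and `d k ≤ ρ + m + 1` for all `k`. If
`p_g(W) = 0` then `W` is birational to a component of a hyperplane section of the intersection of
the hypersurfaces `F j = 0`, `j ≠ k`, for some `k` with `d k ≥ r ≥ m + 2`. If moreover
`Σ_{j ≠ k} d j ≤ N - 2` for all `k` with `d k ≥ ρ` (for smooth `V` this says that no such `d k` is
equal to `m + 2`), then `p_g(W) = 0` if and only if `κ(W) = -∞`, if and only if `K_W` is not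
pseudo-effective, if and only if `W` is uniruled. -/
theorem result {n N m : ℕ} (hn : 1 ≤ n) {κ : Type} [Fintype κ] [DecidableEq κ]
    (hN : n + Fintype.card κ = N) {F : κ → MvPolynomial (Fin (N + 1)) ℂ} {d : κ → ℕ}
    (hd : ∀ k, (F k).IsHomogeneous (d k)) {K : Type} [Field K] [Algebra ℂ K] {i : Fin (N + 1)}
    {x : Fin (N + 1) → K} (hx : IsGenericPoint n F i x)
    (hV : (IsSmooth F ∧ ∑ k, d k = m + N + 1) ∨ (IsTransversal F x ∧ HasForm n m x))
    (L : Type) [Field L] [Algebra ℂ L] [Algebra L K] [IsScalarTower ℂ L K]
    [FiniteDimensional L K] :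
    (Module.finrank L K ≤ m + 1 → ¬ GenusZero L n) ∧
    (Module.finrank L K ≤ 2 * m + 1 → ∀ ρ : ℕ, ρ = max (Module.finrank L K) (m + 2) →
      (∀ j k, j ≠ k → d j < ρ ∨ d k < ρ) → (∀ k, d k ≤ ρ + m + 1) →
      (GenusZero L n → ∃ k, m + 2 ≤ Module.finrank L K ∧ Module.finrank L K ≤ d k ∧
        IsHyperplaneSection L n F k) ∧
      ((∀ k, ρ ≤ d k → ∑ j, d j + 2 ≤ N + d k) →
        [GenusZero L n, ¬ KodGe ℂ L n (fun _ => False) 0, ¬ Psef ℂ L n (fun _ => False),
          IsUniruled ℂ L n].TFAE)) := by
  classical
  obtain ⟨N, rfl⟩ : ∃ N', N = N' + 1 := ⟨N - 1, by omega⟩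
  have hessK : Algebra.EssFiniteType ℂ K := by
    rw [← IntermediateField.fg_top_iff]
    exact ⟨Finset.univ.image x, by
      rw [Finset.coe_image, Finset.coe_univ, Set.image_univ, hx.gen]⟩
  have hessL : Algebra.EssFiniteType ℂ L := Pool.Agent.TH466.QG.ess_below (K := K)
  have hL : Algebra.trdeg ℂ L = n := Pool.Agent.Y184.NT.trdeg_below (K := K) hx.dim
  have hi0 : x i ≠ 0 := by
    rw [hx.one]
    exact one_ne_zero
  obtain ⟨s, hs⟩ := Pool.Agent.Helper37K9.CI.exists_coord x (d := n) (by
    rw [hx.gen]
    have h1 : Algebra.trdeg ℂ (⊤ : IntermediateField ℂ K) = Algebra.trdeg ℂ K :=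
      IntermediateField.topEquiv.trdeg_eq
    rw [h1, hx.dim])
  have hgr : IsTransversal F x := by
    rcases hV with ⟨hsm, -⟩ | ⟨h, -⟩
    · obtain ⟨S, hS⟩ := Pool.Agent.TH145.SP.exists_minor_ne hsm hi0 hx.zero
      exact Pool.Agent.Helper37K9.CI.ind_of_jac hS
    · exact h
  obtain ⟨ω, hω, hω0, hreg⟩ : HasForm n m x := by
    rcases hV with ⟨hsm, hm⟩ | ⟨-, h⟩
    · obtain ⟨ω, hω, hω0, hreg⟩ := Pool.Agent.Helper37K9.CI.exists_form hd hsm (m := m) (by omega)
        hN hx.zero hx.one hs
      exact ⟨ω, hω, hω0, fun f P _ => hreg f P⟩
    · exact h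
  have hgenL : IntermediateField.adjoin L (Set.range fun j => algebraMap K K (x j)) = ⊤ := by
    rw [eq_top_iff]
    intro y _
    have h1 : y ∈ IntermediateField.adjoin ℂ (Set.range x) := by
      rw [hx.gen]
      trivial
    have h2 : IntermediateField.adjoin ℂ (Set.range x) ≤
        (IntermediateField.adjoin L (Set.range fun j => algebraMap K K (x j))).restrictScalars
          ℂ := by
      rw [IntermediateField.adjoin_le_iff]
      exact IntermediateField.subset_adjoin L _
    exact h2 h1
  have part1 : Module.finrank L K ≤ m + 1 → ¬ GenusZero L n := by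
    intro hr hg
    have hNLG : Pool.Agent.Y184.NT.StNLG := Pool.Agent.Y944.NT.stNLG
      (Pool.Agent.Y297.NT.t_Pull Pool.Agent.Y71.NT.t_abh) Pool.Agent.Y929.NT.t_W0
      Pool.Agent.Y888.NT.stDer
    obtain ⟨θ, hθ, hθr, D, hD⟩ := (Pool.Agent.Y184.NT.dom (L := L) (K := K) hNLG hn hx.dim hx.one
      hx.gen hω hω0 hreg hgenL).1 hr
    exact hD (hg θ hθ hθr D)
  have part2 : Module.finrank L K ≤ 2 * m + 1 →
      ∀ ρ : ℕ, ρ = max (Module.finrank L K) (m + 2) → (∀ j k, j ≠ k → d j < ρ ∨ d k < ρ) →
      (∀ k, d k ≤ ρ + m + 1) → GenusZero L n → ρ = Module.finrank L K ∧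
      m + 2 ≤ Module.finrank L K ∧ ∃ k, Module.finrank L K ≤ d k ∧
      ∃ (H : MvPolynomial (Fin (N + 2)) ℂ) (z : Fin (N + 2) → L) (i : Fin (N + 2)),
        H.IsHomogeneous 1 ∧ H ≠ 0 ∧ z i = 1 ∧ IntermediateField.adjoin ℂ (Set.range z) = ⊤ ∧
        (∀ j, aeval z (Function.update F k H j) = 0) ∧
        LinearIndependent L fun (j : κ) (l : Fin (N + 2)) =>
          aeval z (pderiv l (Function.update F k H j)) := by
    intro hr ρ hρ h1 h2 hg
    have h3 : m + 2 ≤ Module.finrank L K := by
      by_contra hcon
      exact part1 (by omega) hg
    have h4 : ρ = Module.finrank L K := by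
      rw [hρ]
      exact max_eq_left h3
    subst h4
    exact ⟨rfl, Pool.Agent.Helper37K9.CI.structure_thm (L := L) hn hd hN hx.zero hx.one hx.gen
      hx.dim hgr hω hω0 hreg hg hr h1 h2⟩
  refine ⟨part1, fun hr ρ hρ h1 h2 => ⟨fun hg => ?_, fun hk => ?_⟩⟩
  · obtain ⟨-, hrm, k, hk, H, z, j, hH, hH0, hzj, hzgen, hz, hind⟩ := part2 hr ρ hρ h1 h2 hg
    exact ⟨k, hrm, hk, H, z, j, hH, hH0, ⟨hzj, hz, hzgen, hL⟩, hind⟩
  · refine Pool.Agent.Helper37K9.CI.tfae_of hL fun hg => ?_
    obtain ⟨h4, hrm, k, hk', H, z, j, hH, hH0, hzj, hzgen, hz, hind⟩ := part2 hr ρ hρ h1 h2 hg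
    have h3 := hk k (by omega)
    exact Pool.Agent.Helper37K9.CI.uniruled_thm hd hN hL hH hzj hzgen hz hind (by omega)

end Pool.Agent.Results.MP_e06174_ag.ImagesOfCompleteIntersections
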